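import Mathlib

/-!
Finitely presented modules, pure submodules (lifting of maps from finitely presented modules),
direct limits of classes of finitely presented modules.
-/

namespace Pool.Agent.X146.ML

universe u

variable {R : Type u} [Ring R]

/-- a finitely presented module by generators and relations, with its universal property -/
theorem pres (E : Type u) [AddCommGroup E] [Module R E] [Module.FinitePresentation R E] :
    ∃ (n : ℕ) (x : Fin n → E) (rel : Finset (Fin n → R)),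
      (∀ ρ ∈ rel, ∑ i, ρ i • x i = 0) ∧ Submodule.span R (Set.range x) = ⊤ ∧
      ∀ (W : Type u) [AddCommGroup W] [Module R W] (y : Fin n → W),
        (∀ ρ ∈ rel, ∑ i, ρ i • y i = 0) → ∃ f : E →ₗ[R] W, ∀ i, f (x i) = y i := by
  classical
  obtain ⟨n, K, e, hK⟩ := Module.FinitePresentation.exists_fin R E
  obtain ⟨rel, hrel⟩ := hK
  refine ⟨n, fun i => e.symm (K.mkQ (Pi.single i 1)), rel, ?_, ?_, ?_⟩
  · intro ρ hρ
    have h1 : ∑ i, ρ i • e.symm (K.mkQ (Pi.single i 1)) = e.symm (K.mkQ ρ) := by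
      simp only [← map_smul, ← map_sum]
      congr 2
      funext j
      simp [Finset.sum_apply, Pi.single_apply]
    rw [h1]
    have h2 : ρ ∈ K := hrel ▸ Submodule.subset_span hρ
    have h3 : K.mkQ ρ = 0 := by simpa using h2
    rw [h3, map_zero]
  · rw [eq_top_iff]
    intro z _
    obtain ⟨v, hv⟩ := K.mkQ_surjective (e z)
    have hz : z = e.symm (K.mkQ v) := by rw [hv]; simp
    have h1 : e.symm (K.mkQ v) = ∑ i, v i • e.symm (K.mkQ (Pi.single i 1)) := by
      simp only [← map_smul, ← map_sum]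
      congr 2
      funext j
      simp [Finset.sum_apply, Pi.single_apply]
    rw [hz, h1]
    exact Submodule.sum_mem _ fun i _ => Submodule.smul_mem _ _
      (Submodule.subset_span ⟨i, rfl⟩)
  · intro W _ _ y hy
    have hK' : K ≤ LinearMap.ker (Fintype.linearCombination R y) := by
      rw [← hrel, Submodule.span_le]
      intro ρ hρ
      simp only [SetLike.mem_coe, LinearMap.mem_ker, Fintype.linearCombination_apply]
      exact hy ρ hρ
    refine ⟨(K.liftQ _ hK') ∘ₗ e.toLinearMap, fun i => ?_⟩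
    simp [Fintype.linearCombination_apply, Pi.single_apply]

theorem mkQ_zero {M : Type u} [AddCommGroup M] [Module R M] {N : Submodule R M} {x : M} :
    N.mkQ x = 0 ↔ x ∈ N := by
  rw [Submodule.mkQ_apply, Submodule.Quotient.mk_eq_zero]

/-- Purity of a submodule: maps from finitely presented modules lift along the quotient map. -/
def PureLift {M : Type u} [AddCommGroup M] [Module R M] (N : Submodule R M) : Prop :=
  ∀ (E : Type u) [AddCommGroup E] [Module R E] [Module.FinitePresentation R E]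
    (h : E →ₗ[R] M ⧸ N), ∃ g : E →ₗ[R] M, N.mkQ ∘ₗ g = h

/-- Every map from a finitely presented module factors through the class. -/
def Factor (A : ModuleCat.{u} R → Prop) (M : Type u) [AddCommGroup M] [Module R M] : Prop :=
  ∀ (E : Type u) [AddCommGroup E] [Module R E] [Module.FinitePresentation R E]
    (f : E →ₗ[R] M), ∃ B : ModuleCat.{u} R, A B ∧
      ∃ (a : E →ₗ[R] B) (b : B →ₗ[R] M), b ∘ₗ a = f

/-- `M` is isomorphic to a direct limit, over a directed index set, of modules in `A`. -/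
def InLim (A : ModuleCat.{u} R → Prop) (M : Type u) [AddCommGroup M] [Module R M] : Prop :=
  ∃ (ι : Type u) (_ : Preorder ι) (_ : IsDirectedOrder ι) (_ : Nonempty ι) (_ : DecidableEq ι)
    (G : ι → ModuleCat.{u} R) (f : ∀ i j, i ≤ j → G i →ₗ[R] G j)
    (_ : DirectedSystem (fun i => G i) fun i j h => f i j h),
    (∀ i, A (G i)) ∧ Nonempty (Module.DirectLimit (fun i => G i) f ≃ₗ[R] M)

theorem factor_quot {A : ModuleCat.{u} R → Prop} {M : Type u} [AddCommGroup M] [Module R M]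
    (hM : Factor A M) {N : Submodule R M} (hN : PureLift N) : Factor A (M ⧸ N) := by
  intro E _ _ _ f
  obtain ⟨g, hg⟩ := hN E f
  obtain ⟨B, hB, a, b, hab⟩ := hM E g
  exact ⟨B, hB, a, N.mkQ ∘ₗ b, by rw [LinearMap.comp_assoc, hab, hg]⟩

theorem exists_common {M : Type u} [AddCommGroup M] [Module R M] {c : Set (Submodule R M)}
    (hc : DirectedOn (· ≤ ·) c) (hne : c.Nonempty) {α : Type*} (rel : Finset α) (v : α → M)
    (h : ∀ ρ ∈ rel, ∃ N ∈ c, v ρ ∈ N) : ∃ N ∈ c, ∀ ρ ∈ rel, v ρ ∈ N := by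
  classical
  induction rel using Finset.induction_on with
  | empty =>
    obtain ⟨N, hN⟩ := hne
    exact ⟨N, hN, by simp⟩
  | insert a s ha ih =>
    obtain ⟨N₁, h1, h1'⟩ := ih fun ρ hρ => h ρ (Finset.mem_insert_of_mem hρ)
    obtain ⟨N₂, h2, h2'⟩ := h a (Finset.mem_insert_self _ _)
    obtain ⟨N, hN, hl1, hl2⟩ := hc N₁ h1 N₂ h2
    refine ⟨N, hN, fun ρ hρ => ?_⟩
    rcases Finset.mem_insert.1 hρ with rfl | hρ
    · exact hl2 h2'
    · exact hl1 (h1' ρ hρ)

theorem pure_sSup {M : Type u} [AddCommGroup M] [Module R M] {c : Set (Submodule R M)}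
    (hc : DirectedOn (· ≤ ·) c) (hne : c.Nonempty) (hp : ∀ N ∈ c, PureLift N) :
    PureLift (sSup c) := by
  intro E _ _ _ h
  obtain ⟨n, x, rel, hrel, hspan, huniv⟩ := pres (R := R) E
  choose m hm using fun i => (sSup c).mkQ_surjective (h (x i))
  have h1 : ∀ ρ ∈ rel, ∃ N ∈ c, ∑ i, ρ i • m i ∈ N := by
    intro ρ hρ
    have h2 : (sSup c).mkQ (∑ i, ρ i • m i) = 0 := by
      rw [map_sum]
      simp only [map_smul, hm]
      rw [← map_zero h, ← hrel ρ hρ, map_sum]
      simp only [map_smul]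
    have h3 : ∑ i, ρ i • m i ∈ sSup c := mkQ_zero.1 h2
    exact (Submodule.mem_sSup_of_directed hne hc).1 h3
  obtain ⟨N, hN, hN'⟩ := exists_common hc hne rel (fun ρ => ∑ i, ρ i • m i) h1
  obtain ⟨h', hh'⟩ := huniv (M ⧸ N) (fun i => N.mkQ (m i)) (fun ρ hρ => by
    simp only [← map_smul, ← map_sum]
    exact mkQ_zero.2 (hN' ρ hρ))
  obtain ⟨g, hg⟩ := hp N hN E h'
  refine ⟨g, ?_⟩
  refine LinearMap.ext_on_range hspan fun i => ?_
  have h4 : N.mkQ (g (x i)) = N.mkQ (m i) := by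
    rw [← hh' i, ← hg]; rfl
  have h5 : g (x i) - m i ∈ N := by
    have : N.mkQ (g (x i) - m i) = 0 := by rw [map_sub, h4, sub_self]
    exact mkQ_zero.1 this
  have h6 : g (x i) - m i ∈ sSup c := le_sSup hN h5
  have h7 : (sSup c).mkQ (g (x i) - m i) = 0 := mkQ_zero.2 h6
  rw [map_sub, sub_eq_zero] at h7
  rw [LinearMap.comp_apply, h7, hm]

theorem pure_bot {M : Type u} [AddCommGroup M] [Module R M] : PureLift (⊥ : Submodule R M) := by
  intro E _ _ _ h
  refine ⟨(Submodule.quotEquivOfEqBot (⊥ : Submodule R M) rfl).toLinearMap ∘ₗ h, ?_⟩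
  ext z
  obtain ⟨m, hm⟩ := (⊥ : Submodule R M).mkQ_surjective (h z)
  simp only [LinearMap.comp_apply]
  rw [← hm]
  rfl

/-- transitivity of purity -/
theorem pure_comap {M : Type u} [AddCommGroup M] [Module R M] {N : Submodule R M}
    (hN : PureLift N) {P : Submodule R (M ⧸ N)} (hP : PureLift P) :
    PureLift (P.comap N.mkQ) := by
  intro E _ _ _ h
  -- the isomorphism `M / π⁻¹ P = (M / N) / P`
  let φ : M ⧸ (P.comap N.mkQ) →ₗ[R] (M ⧸ N) ⧸ P :=
    Submodule.mapQ (P.comap N.mkQ) P N.mkQ le_rfl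
  have hφ : Function.Injective φ := by
    rw [← LinearMap.ker_eq_bot, LinearMap.ker_eq_bot']
    intro z hz
    obtain ⟨m, rfl⟩ := (P.comap N.mkQ).mkQ_surjective z
    have : P.mkQ (N.mkQ m) = 0 := hz
    have h2 : N.mkQ m ∈ P := by simpa using this
    have h3 : m ∈ P.comap N.mkQ := h2
    simpa using h3
  obtain ⟨g₁, hg₁⟩ := hP E (φ ∘ₗ h)
  obtain ⟨g₂, hg₂⟩ := hN E g₁
  refine ⟨g₂, ?_⟩
  ext z
  apply hφ
  have e1 : φ ((P.comap N.mkQ).mkQ (g₂ z)) = P.mkQ (N.mkQ (g₂ z)) := rfl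
  rw [LinearMap.comp_apply, e1]
  have e2 : N.mkQ (g₂ z) = g₁ z := by rw [← hg₂]; rfl
  rw [e2]
  have e3 : P.mkQ (g₁ z) = (P.mkQ ∘ₗ g₁) z := rfl
  rw [e3, hg₁]
  rfl

theorem exists_index {ι : Type u} [Preorder ι] [IsDirectedOrder ι] [Nonempty ι]
    {α : Type*} (s : Finset α) (p : α → ι → Prop) (hmono : ∀ a i j, i ≤ j → p a i → p a j)
    (h : ∀ a ∈ s, ∃ i, p a i) : ∃ i, ∀ a ∈ s, p a i := by
  classical
  induction s using Finset.induction_on with
  | empty => exact ⟨Classical.arbitrary ι, by simp⟩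
  | insert a s ha ih =>
    obtain ⟨i, hi⟩ := ih fun b hb => h b (Finset.mem_insert_of_mem hb)
    obtain ⟨j, hj⟩ := h a (Finset.mem_insert_self _ _)
    obtain ⟨k, hik, hjk⟩ := exists_ge_ge i j
    refine ⟨k, fun b hb => ?_⟩
    rcases Finset.mem_insert.1 hb with rfl | hb
    · exact hmono _ _ _ hjk hj
    · exact hmono _ _ _ hik (hi b hb)

theorem factor_of_inLim {A : ModuleCat.{u} R → Prop} {M : Type u} [AddCommGroup M] [Module R M]
    (hM : InLim A M) : Factor A M := by
  obtain ⟨ι, _, _, _, _, G, f, hds, hA, ⟨e⟩⟩ := hM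
  intro E _ _ _ φ
  obtain ⟨n, x, rel, hrel, hspan, huniv⟩ := pres (R := R) E
  -- a common index for the generators
  obtain ⟨i, hi⟩ := exists_index (Finset.univ : Finset (Fin n))
    (fun k i => ∃ y : G i, Module.DirectLimit.of R ι (fun i => G i) f i y = e.symm (φ (x k)))
    (fun k i j hij ⟨y, hy⟩ => ⟨f i j hij y, by rw [Module.DirectLimit.of_f, hy]⟩)
    (fun k _ => Module.DirectLimit.exists_of _)
  choose y hy using fun k => hi k (Finset.mem_univ k)
  have : IsDirectedOrder {j // i ≤ j} := ⟨fun a b => by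
    obtain ⟨k, hak, hbk⟩ := exists_ge_ge a.1 b.1
    exact ⟨⟨k, a.2.trans hak⟩, hak, hbk⟩⟩
  have : Nonempty {j // i ≤ j} := ⟨⟨i, le_rfl⟩⟩
  obtain ⟨j₀, hj₀⟩ := exists_index (ι := {j // i ≤ j}) rel
    (fun ρ j => f i j.1 j.2 (∑ k, ρ k • y k) = 0)
    (fun ρ j j' hjj' hρ => by
      have := hds.map_map j.2 hjj' (∑ k, ρ k • y k)
      rw [← this, hρ, map_zero])
    (fun ρ hρ => by
      have h1 : Module.DirectLimit.of R ι (fun i => G i) f i (∑ k, ρ k • y k) = 0 := by
        rw [map_sum]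
        simp only [map_smul, hy]
        simp only [← map_smul, ← map_sum]
        rw [hrel ρ hρ, map_zero, map_zero]
      obtain ⟨j, hij, hj⟩ := Module.DirectLimit.of.zero_exact h1
      exact ⟨⟨j, hij⟩, hj⟩)
  obtain ⟨a, ha⟩ := huniv (G j₀.1) (fun k => f i j₀.1 j₀.2 (y k)) (fun ρ hρ => by
    have := hj₀ ρ hρ
    rw [map_sum] at this
    simpa only [map_smul] using this)
  refine ⟨G j₀.1, hA _, a, e.toLinearMap ∘ₗ Module.DirectLimit.of R ι (fun i => G i) f j₀.1, ?_⟩
  refine LinearMap.ext_on_range hspan fun k => ?_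
  rw [LinearMap.comp_apply, LinearMap.comp_apply, ha, Module.DirectLimit.of_f, hy]
  simp

end Pool.Agent.X146.ML
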