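import Mathlib
import Pool.Agent.X146.ML.Basic

/-!
Positive primitive formulas, Mittag-Leffler modules, and generators of pp types.
-/

namespace Pool.Agent.X146.ML

universe u

/-- A positive primitive formula `∃ y, A x + B y = 0` in `n` free variables. -/
structure PPFormula (R : Type u) (n : ℕ) where
  /-- the number of bound variables -/
  bound : ℕ
  /-- the number of equations -/
  eqs : ℕ
  /-- coefficients of the free variables -/
  A : Fin eqs → Fin n → R
  /-- coefficients of the bound variables -/
  B : Fin eqs → Fin bound → R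

variable {R : Type u} [Ring R]

/-- The tuple `x` of elements of the module `M` satisfies the formula. -/
def PPFormula.Sat {n : ℕ} (φ : PPFormula R n) {M : Type u} [AddCommGroup M] [Module R M]
    (x : Fin n → M) : Prop :=
  ∃ y : Fin φ.bound → M, ∀ i, ∑ j, φ.A i j • x j + ∑ l, φ.B i l • y l = 0

/-- `M` is Mittag-Leffler: the pp type of every finite tuple contains a pp formula which implies,
in every module, all formulas of the type. -/
def MittagLeffler (R : Type u) [Ring R] (M : Type u) [AddCommGroup M] [Module R M] : Prop :=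
  ∀ (n : ℕ) (x : Fin n → M), ∃ φ : PPFormula R n, φ.Sat x ∧
    ∀ ψ : PPFormula R n, ψ.Sat x →
      ∀ (W : Type u) [AddCommGroup W] [Module R W] (w : Fin n → W), φ.Sat w → ψ.Sat w

theorem exists_pp {n : ℕ} (β κ : Type) [Fintype β] [Fintype κ] (A : κ → Fin n → R)
    (B : κ → β → R) : ∃ ψ : PPFormula R n, ∀ (M : Type u) [AddCommGroup M] [Module R M]
      (x : Fin n → M), ψ.Sat x ↔
        ∃ y : β → M, ∀ k, ∑ j, A k j • x j + ∑ l, B k l • y l = 0 := by
  let eβ := Fintype.equivFin β
  let eκ := Fintype.equivFin κ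
  refine ⟨⟨Fintype.card β, Fintype.card κ, fun i j => A (eκ.symm i) j,
    fun i l => B (eκ.symm i) (eβ.symm l)⟩, fun M _ _ x => ?_⟩
  constructor
  · rintro ⟨y, hy⟩
    refine ⟨fun l => y (eβ l), fun k => ?_⟩
    have h := hy (eκ k)
    simp only [Equiv.symm_apply_apply] at h
    rw [← h]
    congr 1
    rw [← Equiv.sum_comp eβ]
    simp
  · rintro ⟨y, hy⟩
    refine ⟨fun l => y (eβ.symm l), fun k => ?_⟩
    have h := hy (eκ.symm k)
    rw [← h]
    simp only
    congr 1
    rw [← Equiv.sum_comp eβ]
    simp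

/-- A generator of the pp type of a finite set `T` of elements of `Q`. -/
structure TG (Q : Type u) [AddCommGroup Q] [Module R Q] (T : Finset Q) where
  /-- the finitely presented module -/
  F : ModuleCat.{u} R
  fp : Module.FinitePresentation R F
  /-- the tuple -/
  c : Q → F
  /-- the map to `Q` -/
  h : F →ₗ[R] Q
  hc : ∀ t ∈ T, h (c t) = t
  univ : ∀ (G : Type u) [AddCommGroup G] [Module R G] [Module.FinitePresentation R G]
    (d : Q → G) (g : G →ₗ[R] Q), (∀ t ∈ T, g (d t) = t) →
      ∃ k : G →ₗ[R] F, ∀ t ∈ T, k (d t) = c t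

/-- The module presented by finitely many generators and relations. -/
abbrev Pres (R : Type u) [Ring R] (α : Type u) [Fintype α] (rel : Set (α → R)) : Type u :=
  (α → R) ⧸ Submodule.span R rel

theorem fp_pres (α : Type u) [Fintype α] (rel : Set (α → R)) (h : rel.Finite) :
    Module.FinitePresentation R (Pres R α rel) := by
  refine Module.finitePresentation_of_free_of_surjective (Submodule.mkQ _)
    (Submodule.mkQ_surjective _) ?_
  rw [Submodule.ker_mkQ]
  exact Submodule.fg_span h

open Classical in
/-- The generators. -/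
noncomputable def gen {α : Type u} [Fintype α] {rel : Set (α → R)} (a : α) : Pres R α rel :=
  Submodule.Quotient.mk (Pi.single a 1)

theorem sum_gen {α : Type u} [Fintype α] {rel : Set (α → R)} (ρ : α → R) :
    ∑ a, ρ a • gen (rel := rel) a = Submodule.Quotient.mk ρ := by
  classical
  have h1 : ∑ a, ρ a • gen (rel := rel) a
      = (Submodule.span R rel).mkQ (∑ a, ρ a • Pi.single a (1 : R)) := by
    rw [map_sum]
    refine Finset.sum_congr rfl fun a _ => ?_
    rw [map_smul]
    unfold gen
    rw [Submodule.mkQ_apply]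
  rw [h1]
  have h2 : ∑ a, ρ a • Pi.single a (1 : R) = ρ := by
    funext j
    simp [Finset.sum_apply, Pi.single_apply]
  rw [h2]
  rfl

theorem sum_gen_rel {α : Type u} [Fintype α] {rel : Set (α → R)} {ρ : α → R} (hρ : ρ ∈ rel) :
    ∑ a, ρ a • gen (rel := rel) a = 0 := by
  rw [sum_gen, Submodule.Quotient.mk_eq_zero]
  exact Submodule.subset_span hρ

theorem exists_hom {α : Type u} [Fintype α] {rel : Set (α → R)} {W : Type u} [AddCommGroup W]
    [Module R W] (y : α → W) (hy : ∀ ρ ∈ rel, ∑ a, ρ a • y a = 0) :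
    ∃ f : Pres R α rel →ₗ[R] W, ∀ a, f (gen a) = y a := by
  classical
  have hK' : Submodule.span R rel ≤ LinearMap.ker (Fintype.linearCombination R y) := by
    rw [Submodule.span_le]
    intro ρ hρ
    simp only [SetLike.mem_coe, LinearMap.mem_ker, Fintype.linearCombination_apply]
    exact hy ρ hρ
  refine ⟨Submodule.liftQ _ _ hK', fun a => ?_⟩
  unfold gen
  rw [Submodule.liftQ_apply]
  simp [Fintype.linearCombination_apply, Pi.single_apply]

theorem exists_TG {Q : Type u} [AddCommGroup Q] [Module R Q] (hQ : MittagLeffler R Q)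
    (T : Finset Q) : Nonempty (TG (R := R) Q T) := by
  classical
  let n := T.card
  let e : T ≃ Fin n := T.equivFin
  obtain ⟨φ, ⟨y, hy⟩, huniv⟩ := hQ n (fun i => (e.symm i : Q))
  let α : Type u := ULift.{u} (Fin n ⊕ Fin φ.bound)
  let row : Fin φ.eqs → α → R := fun i a => Sum.elim (φ.A i) (φ.B i) a.down
  let F := Pres R α (Set.range row)
  have hfp : Module.FinitePresentation R F := fp_pres α _ (Set.finite_range _)
  have hsum : ∀ (W : Type u) [AddCommGroup W] [Module R W] (i : Fin φ.eqs) (v : α → W),
      ∑ a, row i a • v a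
        = ∑ j, φ.A i j • v ⟨Sum.inl j⟩ + ∑ l, φ.B i l • v ⟨Sum.inr l⟩ := by
    intro W _ _ i v
    rw [← Equiv.sum_comp Equiv.ulift.symm, Fintype.sum_sum_type]
    rfl
  obtain ⟨h, hh⟩ := exists_hom (R := R) (rel := Set.range row)
    (fun a : α => Sum.elim (fun i => (e.symm i : Q)) y a.down) (by
      rintro _ ⟨i, rfl⟩
      rw [hsum]
      exact hy i)
  let cc : Fin n → F := fun i => gen (rel := Set.range row) ⟨Sum.inl i⟩
  let c : Q → F := fun t => if ht : t ∈ T then cc (e ⟨t, ht⟩) else 0
  have hcx : ∀ i : Fin n, c (e.symm i : Q) = cc i := by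
    intro i
    show (if ht : _ then _ else _) = _
    rw [dif_pos (e.symm i).2]
    simp
  have hct : ∀ t (ht : t ∈ T), c t = cc (e ⟨t, ht⟩) := fun t ht => dif_pos ht
  have hφ : φ.Sat (fun i => c (e.symm i : Q)) := by
    refine ⟨fun l => gen (rel := Set.range row) ⟨Sum.inr l⟩, fun i => ?_⟩
    have := sum_gen_rel (rel := Set.range row) (ρ := row i) ⟨i, rfl⟩
    rw [hsum] at this
    simp only [hcx]
    exact this
  refine ⟨⟨ModuleCat.of R F, hfp, c, h, ?_, ?_⟩⟩
  · intro t ht
    rw [hct t ht]
    have := hh ⟨Sum.inl (e ⟨t, ht⟩)⟩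
    refine this.trans ?_
    simp
  · intro G _ _ _ d g hg
    obtain ⟨m, z, rel, hrel, hspan, hG⟩ := pres (R := R) G
    -- coordinates of `d t`
    have hd : ∀ i : Fin n, ∃ a : Fin m → R, ∑ j, a j • z j = d (e.symm i : Q) := by
      intro i
      have : d (e.symm i : Q) ∈ Submodule.span R (Set.range z) := by rw [hspan]; trivial
      exact (Submodule.mem_span_range_iff_exists_fun R).1 this
    choose a ha using hd
    obtain ⟨ψ, hψ⟩ := exists_pp (R := R) (n := n) (Fin m) (Fin n ⊕ Fin rel.card)
      (Sum.elim (fun i j => if i = j then 1 else 0) (fun _ _ => 0))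
      (Sum.elim (fun i l => - a i l) (fun k l => (rel.equivFin.symm k : Fin m → R) l))
    have h1 : ψ.Sat (fun i => (e.symm i : Q)) := by
      rw [hψ]
      refine ⟨fun l => g (z l), ?_⟩
      rintro (i | k)
      · simp only [Sum.elim_inl]
        have h2 : g (d (e.symm i : Q)) = (e.symm i : Q) := hg _ (e.symm i).2
        rw [← ha i, map_sum] at h2
        simp only [map_smul] at h2
        simp only [neg_smul, Finset.sum_neg_distrib, h2]
        simp
      · simp only [Sum.elim_inr]
        have h2 := hrel _ (rel.equivFin.symm k).2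
        have h3 := congrArg g h2
        rw [map_sum, map_zero] at h3
        simp only [map_smul] at h3
        simp [h3]
    have h2 := huniv ψ h1 F _ hφ
    rw [hψ] at h2
    obtain ⟨w, hw⟩ := h2
    obtain ⟨k, hk⟩ := hG F w (by
      intro ρ hρ
      have := hw (Sum.inr (rel.equivFin ⟨ρ, hρ⟩))
      simpa using this)
    refine ⟨k, fun t ht => ?_⟩
    have h3 := hw (Sum.inl (e ⟨t, ht⟩))
    simp only [Sum.elim_inl] at h3
    have h4 : d t = ∑ j, a (e ⟨t, ht⟩) j • z j := by
      rw [ha]; simp
    rw [h4, map_sum]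
    simp only [map_smul, hk]
    simp only [neg_smul, Finset.sum_neg_distrib, ite_smul, one_smul, zero_smul,
      Finset.sum_ite_eq, Finset.mem_univ, if_true] at h3
    rw [← sub_eq_add_neg, sub_eq_zero] at h3
    rw [← h3]
    simp

end Pool.Agent.X146.ML
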