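import Mathlib
import Pool.Agent.X146.ML.PP

/-!
In the quotient by a pure submodule, if the quotient is Mittag-Leffler, every element lies in a
countably generated pure submodule over which the quotient map splits.
-/

namespace Pool.Agent.X146.ML

universe u

variable {R : Type u} [Ring R]

theorem TG.solve {Q : Type u} [AddCommGroup Q] [Module R Q] {T : Finset Q}
    (D : TG (R := R) Q T) (m : ℕ) (w : Fin m → Q) (rel : Finset (Fin m → R))
    (f : (Fin m → R) → Q → R) (hf : ∀ ρ ∈ rel, ∑ i, ρ i • w i = ∑ t ∈ T, f ρ t • t) :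
    ∃ y : Fin m → D.F, ∀ ρ ∈ rel, ∑ i, ρ i • y i = ∑ t ∈ T, f ρ t • D.c t := by
  classical
  let α : Type u := ULift.{u} (Fin m) ⊕ T
  let row : (Fin m → R) → α → R := fun ρ => Sum.elim (fun i => ρ i.down) (fun t => - f ρ t)
  have hsum : ∀ (W : Type u) [AddCommGroup W] [Module R W] (ρ : Fin m → R) (v : α → W)
      (v' : Q → W), (∀ t : T, v (Sum.inr t) = v' t) → ∑ a, row ρ a • v a
        = ∑ i, ρ i • v (Sum.inl ⟨i⟩) - ∑ t ∈ T, f ρ t • v' t := by
    intro W _ _ ρ v v' hv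
    rw [Fintype.sum_sum_type, sub_eq_add_neg]
    congr 1
    · rw [← Equiv.sum_comp Equiv.ulift.symm]
      rfl
    · rw [← Finset.sum_coe_sort T (fun t => f ρ t • v' t), ← Finset.sum_neg_distrib]
      refine Finset.sum_congr rfl fun t _ => ?_
      rw [hv]
      show (- f ρ t) • _ = _
      rw [neg_smul]
  let rel' : Set (α → R) := row '' (rel : Set (Fin m → R))
  have hfin : rel'.Finite := rel.finite_toSet.image _
  have := fp_pres (R := R) α rel' hfin
  obtain ⟨g, hg⟩ := exists_hom (R := R) (rel := rel')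
    (Sum.elim (fun i => w i.down) (fun t : T => (t : Q))) (by
      rintro _ ⟨ρ, hρ, rfl⟩
      rw [hsum Q ρ _ id (fun t => rfl)]
      simp only [Sum.elim_inl, id]
      rw [hf ρ hρ, sub_self])
  let d : Q → Pres R α rel' := fun t => if ht : t ∈ T then gen (Sum.inr ⟨t, ht⟩) else 0
  have hd : ∀ t (ht : t ∈ T), d t = gen (Sum.inr ⟨t, ht⟩) := fun t ht => dif_pos ht
  obtain ⟨k, hk⟩ := D.univ (Pres R α rel') d g (fun t ht => by rw [hd t ht, hg]; rfl)
  refine ⟨fun i => k (gen (Sum.inl ⟨i⟩)), fun ρ hρ => ?_⟩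
  have h1 := sum_gen_rel (R := R) (rel := rel') (ρ := row ρ) ⟨ρ, hρ, rfl⟩
  rw [hsum _ ρ _ d (fun t => (hd t.1 t.2).symm), sub_eq_zero] at h1
  have h2 := congrArg k h1
  rw [map_sum, map_sum] at h2
  simp only [map_smul] at h2
  rw [h2]
  exact Finset.sum_congr rfl fun t ht => by rw [hk t ht]

theorem TG.rel {Q : Type u} [AddCommGroup Q] [Module R Q] {T : Finset Q}
    (D : TG (R := R) Q T) (r : Q → R) (hr : ∑ t ∈ T, r t • t = 0) :
    ∑ t ∈ T, r t • D.c t = 0 := by
  obtain ⟨y, hy⟩ := D.solve 0 Fin.elim0 {0} (fun _ => r) (fun ρ _ => by simpa using hr.symm)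
  have := hy 0 (by simp)
  simpa using this.symm

/-- lifting step -/
theorem step {M : Type u} [AddCommGroup M] [Module R M] {N : Submodule R M} (hN : PureLift N)
    {T T' : Finset (M ⧸ N)} (hT : T ⊆ T') (D : TG (R := R) (M ⧸ N) T)
    (D' : TG (R := R) (M ⧸ N) T') (g : D.F →ₗ[R] M) (hg : N.mkQ ∘ₗ g = D.h) :
    ∃ g' : D'.F →ₗ[R] M, N.mkQ ∘ₗ g' = D'.h ∧ ∀ t ∈ T, g' (D'.c t) = g (D.c t) := by
  have := D'.fp
  obtain ⟨v, hv⟩ := D.univ D'.F D'.c D'.h (fun t ht => D'.hc t (hT ht))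
  let S : Submodule R D'.F := Submodule.span R (D'.c '' (T : Set (M ⧸ N)))
  have hSfg : S.FG := Submodule.fg_span ((Finset.finite_toSet T).image _)
  have hfp : Module.FinitePresentation R (D'.F ⧸ S) :=
    Module.finitePresentation_of_surjective S.mkQ S.mkQ_surjective (by
      rw [Submodule.ker_mkQ]; exact hSfg)
  have hS : S ≤ LinearMap.ker (D'.h - D.h ∘ₗ v) := by
    refine Submodule.span_le.2 ?_
    rintro _ ⟨t, ht, rfl⟩
    have ht' : t ∈ T := ht
    simp only [SetLike.mem_coe, LinearMap.mem_ker, LinearMap.sub_apply, LinearMap.comp_apply]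
    rw [D'.hc t (hT ht'), hv t ht', D.hc t ht', sub_self]
  obtain ⟨z, hz⟩ := hN (D'.F ⧸ S) (S.liftQ _ hS)
  refine ⟨g ∘ₗ v + z ∘ₗ S.mkQ, ?_, fun t ht => ?_⟩
  · ext x
    have h1 : N.mkQ (g (v x)) = D.h (v x) := by rw [← hg]; rfl
    have h2 : N.mkQ (z (S.mkQ x)) = D'.h x - D.h (v x) := by
      have : N.mkQ (z (S.mkQ x)) = (S.liftQ _ hS) (S.mkQ x) := by rw [← hz]; rfl
      rw [this]
      rfl
    rw [LinearMap.comp_apply, LinearMap.add_apply, map_add, LinearMap.comp_apply,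
      LinearMap.comp_apply, h1, h2]
    abel
  · have h3 : S.mkQ (D'.c t) = 0 := mkQ_zero.2 (Submodule.subset_span ⟨t, ht, rfl⟩)
    rw [LinearMap.add_apply, LinearMap.comp_apply, LinearMap.comp_apply, h3, map_zero, add_zero,
      hv t ht]

theorem mem_span_iUnion {M : Type u} [AddCommGroup M] [Module R M] {S : ℕ → Set M}
    (hS : Monotone S) {x : M} (hx : x ∈ Submodule.span R (⋃ n, S n)) :
    ∃ n, x ∈ Submodule.span R (S n) := by
  rw [Submodule.span_iUnion] at hx
  exact (Submodule.mem_iSup_of_directed _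
    (Monotone.directed_le fun _ _ h => Submodule.span_mono (hS h))).1 hx

/-- The main step: a countably generated complement piece containing a given element. -/
theorem exists_piece {M : Type u} [AddCommGroup M] [Module R M] {N : Submodule R M}
    (hN : PureLift N) (hQ : MittagLeffler R (M ⧸ N)) (q : M ⧸ N) :
    ∃ K : Submodule R M, (∃ s : Set M, s.Countable ∧ Submodule.span R s = K) ∧
      Disjoint K N ∧ PureLift (N ⊔ K) ∧ q ∈ K.map N.mkQ := by
  classical
  let D : ∀ T : Finset (M ⧸ N), TG (R := R) (M ⧸ N) T := fun T => (exists_TG hQ T).some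
  have hgen : ∀ T : Finset (M ⧸ N), ∃ G : Finset (M ⧸ N), ∀ z : (D T).F,
      (D T).h z ∈ Submodule.span R (G : Set (M ⧸ N)) := by
    intro T
    have := (D T).fp
    obtain ⟨s, hs⟩ := (inferInstance : Module.Finite R (D T).F).fg_top
    refine ⟨s.image (D T).h, fun z => ?_⟩
    rw [Finset.coe_image, ← Submodule.map_span, hs]
    exact ⟨z, trivial, rfl⟩
  choose gs hgs using hgen
  let Tn : ℕ → Finset (M ⧸ N) := fun n => Nat.rec {q} (fun _ T => T ∪ gs T) n
  have hTsucc : ∀ n, Tn (n + 1) = Tn n ∪ gs (Tn n) := fun n => rfl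
  have hT0 : Tn 0 = {q} := rfl
  have hTle : ∀ n, Tn n ⊆ Tn (n + 1) := fun n => by
    rw [hTsucc]; exact Finset.subset_union_left
  have hTmono : Monotone Tn := monotone_nat_of_le_succ hTle
  -- the lifts
  let X : ℕ → Type u := fun n => {g : (D (Tn n)).F →ₗ[R] M // N.mkQ ∘ₗ g = (D (Tn n)).h}
  have hstart : Nonempty (X 0) := by
    have := (D (Tn 0)).fp
    obtain ⟨g, hg⟩ := hN (D (Tn 0)).F (D (Tn 0)).h
    exact ⟨⟨g, hg⟩⟩
  have hstep : ∀ n (g : X n), ∃ g' : X (n + 1), ∀ t ∈ Tn n,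
      g'.1 ((D (Tn (n + 1))).c t) = g.1 ((D (Tn n)).c t) := by
    intro n g
    obtain ⟨g', h1, h2⟩ := step hN (hTle n) (D (Tn n)) (D (Tn (n + 1))) g.1 g.2
    exact ⟨⟨g', h1⟩, h2⟩
  choose nx hnx using hstep
  let G : ∀ n, X n := fun n => Nat.rec hstart.some (fun n g => nx n g) n
  have hG : ∀ n, ∀ t ∈ Tn n, (G (n + 1)).1 ((D (Tn (n + 1))).c t) = (G n).1 ((D (Tn n)).c t) :=
    fun n t ht => hnx n (G n) t ht
  let S : ℕ → Set M := fun n =>
    (fun t : M ⧸ N => (G n).1 ((D (Tn n)).c t)) '' (SetLike.coe (Tn n) : Set (M ⧸ N))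
  have hSmono : Monotone S := by
    refine monotone_nat_of_le_succ fun n => ?_
    rintro _ ⟨t, ht, rfl⟩
    exact ⟨t, hTle n ht, hG n t ht⟩
  have hπ : ∀ n, ∀ t ∈ Tn n, N.mkQ ((G n).1 ((D (Tn n)).c t)) = t := by
    intro n t ht
    have h1 : N.mkQ ((G n).1 ((D (Tn n)).c t)) = (D (Tn n)).h ((D (Tn n)).c t) :=
      LinearMap.congr_fun (G n).2 _
    rw [h1, (D (Tn n)).hc t ht]
  let K : Submodule R M := Submodule.span R (⋃ n, S n)
  let P : Submodule R (M ⧸ N) := Submodule.span R (⋃ n, (SetLike.coe (Tn n) : Set (M ⧸ N)))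
  have hKP : K.map N.mkQ = P := by
    show (Submodule.span R (⋃ n, S n)).map N.mkQ = _
    rw [Submodule.map_span, Set.image_iUnion]
    congr 1
    refine Set.iUnion_congr fun n => ?_
    show N.mkQ '' ((fun t => (G n).1 ((D (Tn n)).c t)) '' (SetLike.coe (Tn n) : Set (M ⧸ N))) = _
    rw [Set.image_image]
    ext t
    constructor
    · rintro ⟨t', ht', rfl⟩
      simp only [hπ n t' ht']; exact ht'
    · intro ht
      exact ⟨t, ht, hπ n t ht⟩
  have hTm : Monotone fun n => (SetLike.coe (Tn n) : Set (M ⧸ N)) := fun _ _ h => Finset.coe_subset.2 (hTmono h)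
  have hmemP : ∀ n z, (D (Tn n)).h z ∈ P := by
    intro n z
    have h1 := hgs (Tn n) z
    refine Submodule.span_mono ?_ h1
    refine Set.Subset.trans ?_ (Set.subset_iUnion _ (n + 1))
    rw [hTsucc, Finset.coe_union]
    exact Set.subset_union_right
  -- `P` is pure in `M / N`
  have hPpure : PureLift P := by
    intro E _ _ _ h
    obtain ⟨m, x, rel, hrel, hspan, huniv⟩ := pres (R := R) E
    choose w hw using fun i => P.mkQ_surjective (h (x i))
    have h1 : ∀ ρ ∈ rel, ∃ n, ∑ i, ρ i • w i ∈ Submodule.span R (SetLike.coe (Tn n) : Set (M ⧸ N)) := by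
      intro ρ hρ
      have h2 : P.mkQ (∑ i, ρ i • w i) = 0 := by
        rw [map_sum]
        simp only [map_smul, hw]
        rw [← map_zero h, ← hrel ρ hρ, map_sum]
        simp only [map_smul]
      exact mem_span_iUnion hTm (mkQ_zero.1 h2)
    have h3 : ∃ n, ∀ ρ ∈ rel, ∑ i, ρ i • w i ∈ Submodule.span R (SetLike.coe (Tn n) : Set (M ⧸ N)) := by
      choose! nn hnn using h1
      refine ⟨rel.sup nn, fun ρ hρ => ?_⟩
      exact Submodule.span_mono (hTm (Finset.le_sup hρ)) (hnn ρ hρ)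
    obtain ⟨n, hn⟩ := h3
    have h4 : ∀ ρ ∈ rel, ∃ f : (M ⧸ N) → R, ∑ i, ρ i • w i = ∑ t ∈ Tn n, f t • t := by
      intro ρ hρ
      obtain ⟨f, _, hf⟩ := Submodule.mem_span_finset.1 (hn ρ hρ)
      exact ⟨f, hf.symm⟩
    choose! f hf using h4
    obtain ⟨y, hy⟩ := (D (Tn n)).solve m w rel f hf
    obtain ⟨g, hg⟩ := huniv (M ⧸ N) (fun i => w i - (D (Tn n)).h (y i)) (fun ρ hρ => by
      simp only [smul_sub, Finset.sum_sub_distrib]
      have h5 := congrArg (D (Tn n)).h (hy ρ hρ)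
      rw [map_sum, map_sum] at h5
      simp only [map_smul] at h5
      rw [h5, hf ρ hρ, sub_eq_zero]
      exact Finset.sum_congr rfl fun t ht => by rw [(D (Tn n)).hc t ht])
    refine ⟨g, LinearMap.ext_on_range hspan fun i => ?_⟩
    rw [LinearMap.comp_apply, hg, map_sub, hw, mkQ_zero.2 (hmemP n (y i)), sub_zero]
  refine ⟨K, ⟨⋃ n, S n, ?_, rfl⟩, ?_, ?_, ?_⟩
  · exact Set.countable_iUnion fun n => ((Finset.finite_toSet (Tn n)).image _).countable
  · rw [Submodule.disjoint_def]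
    intro x hxK hxN
    obtain ⟨n, hn⟩ := mem_span_iUnion hSmono hxK
    have h1 : ∃ r : (M ⧸ N) → R, ∑ t ∈ Tn n, r t • (G n).1 ((D (Tn n)).c t) = x := by
      have hn' : x ∈ Submodule.span R ((fun t => (G n).1 ((D (Tn n)).c t)) ''
        (SetLike.coe (Tn n) : Set (M ⧸ N))) := hn
      rw [Finsupp.mem_span_image_iff_linearCombination] at hn'
      obtain ⟨l, hl, hlx⟩ := hn'
      refine ⟨l, ?_⟩
      rw [← hlx, Finsupp.linearCombination_apply, Finsupp.sum]
      refine (Finset.sum_subset hl fun t _ ht => ?_).symm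
      rw [Finsupp.notMem_support_iff.1 ht, zero_smul]
    obtain ⟨r, rfl⟩ := h1
    have h2 : ∑ t ∈ Tn n, r t • t = 0 := by
      have h3 := mkQ_zero.2 hxN
      rw [map_sum] at h3
      simp only [map_smul] at h3
      rw [← h3]
      exact Finset.sum_congr rfl fun t ht => by rw [hπ n t ht]
    have h3 := (D (Tn n)).rel r h2
    have h4 := congrArg (G n).1 h3
    rw [map_sum, map_zero] at h4
    simpa only [map_smul] using h4
  · have h1 := pure_comap hN hPpure
    rw [← hKP, Submodule.comap_map_mkQ] at h1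
    exact h1
  · rw [hKP]
    refine Submodule.subset_span (Set.mem_iUnion.2 ⟨0, ?_⟩)
    rw [hT0]
    simp

end Pool.Agent.X146.ML
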