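import Mathlib
import Pool.Agent.X146.ML.Basic

/-!
Lenzing's criterion: a module such that every map from a finitely presented module factors
through the class is a direct limit of modules in the class.
-/

namespace Pool.Agent.X146.ML

universe u

variable {R : Type u} [Ring R]

section

variable (R) (M : Type u) [AddCommGroup M] [Module R M]

/-- The pairs (finite set of generators, relations). -/
abbrev SK := Finset (M × ℕ) × Submodule R ((M × ℕ) →₀ R)

variable {R M}

/-- the inclusion of the free module on a finite set -/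
noncomputable def io (S : Finset (M × ℕ)) : (S →₀ R) →ₗ[R] ((M × ℕ) →₀ R) :=
  Finsupp.lmapDomain R R (Subtype.val : S → M × ℕ)

theorem io_inj (S : Finset (M × ℕ)) : Function.Injective (io (R := R) S) :=
  Finsupp.mapDomain_injective Subtype.val_injective

/-- the canonical map to `M` -/
noncomputable def eps : ((M × ℕ) →₀ R) →ₗ[R] M := Finsupp.linearCombination R Prod.fst

/-- The module presented by a pair. -/
abbrev Gm (p : SK R M) : Type u := (p.1 →₀ R) ⧸ (p.2.comap (io p.1))

/-- the quotient map -/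
noncomputable def mkG (p : SK R M) : (p.1 →₀ R) →ₗ[R] Gm p := Submodule.mkQ _

theorem mkG_surj (p : SK R M) : Function.Surjective (mkG p) := Submodule.mkQ_surjective _

theorem mkG_zero (p : SK R M) {y : p.1 →₀ R} : mkG p y = 0 ↔ io p.1 y ∈ p.2 := by
  unfold mkG
  rw [Submodule.mkQ_apply, Submodule.Quotient.mk_eq_zero]
  rfl

/-- the inclusion between free modules -/
noncomputable def inc {S T : Finset (M × ℕ)} (h : S ⊆ T) : (S →₀ R) →ₗ[R] (T →₀ R) :=
  Finsupp.lmapDomain R R (fun s : S => (⟨s.1, h s.2⟩ : T))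

theorem io_inc {S T : Finset (M × ℕ)} (h : S ⊆ T) (y : S →₀ R) :
    io T (inc h y) = io S y := by
  unfold io inc
  rw [Finsupp.lmapDomain_apply, Finsupp.lmapDomain_apply, Finsupp.lmapDomain_apply,
    ← Finsupp.mapDomain_comp]
  rfl

/-- The transition maps. -/
noncomputable def tr {p q : SK R M} (h : p ≤ q) : Gm p →ₗ[R] Gm q :=
  Submodule.mapQ _ _ (inc h.1) (fun x hx => by
    show io q.1 (inc h.1 x) ∈ q.2
    rw [io_inc]
    exact h.2 hx)

theorem tr_mk {p q : SK R M} (h : p ≤ q) (y : p.1 →₀ R) :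
    tr h (mkG p y) = mkG q (inc h.1 y) := rfl

theorem inc_self {S : Finset (M × ℕ)} (h : S ⊆ S) (y : S →₀ R) : inc h y = y := by
  apply io_inj
  rw [io_inc]

theorem inc_inc {S T U : Finset (M × ℕ)} (h : S ⊆ T) (h' : T ⊆ U) (y : S →₀ R) :
    inc h' (inc h y) = inc (h.trans h') y := by
  apply io_inj
  rw [io_inc, io_inc, io_inc]

/-- The map to `M` from the module presented by a pair of valid relations. -/
noncomputable def toM (p : SK R M) (hk : p.2 ≤ LinearMap.ker (eps (R := R) (M := M))) :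
    Gm p →ₗ[R] M :=
  Submodule.liftQ _ (eps ∘ₗ io p.1) (fun x hx => by
    have : io p.1 x ∈ LinearMap.ker (eps (R := R) (M := M)) := hk hx
    exact this)

theorem toM_mk (p : SK R M) (hk : p.2 ≤ LinearMap.ker (eps (R := R) (M := M)))
    (y : p.1 →₀ R) : toM p hk (mkG p y) = eps (io p.1 y) := rfl

theorem fp_Gm (p : SK R M) (hFG : p.2.FG) (hs : p.2 ≤ LinearMap.range (io (R := R) p.1)) :
    Module.FinitePresentation R (Gm p) := by
  refine Module.finitePresentation_of_free_of_surjective (Submodule.mkQ _)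
    (Submodule.mkQ_surjective _) ?_
  rw [Submodule.ker_mkQ]
  refine Submodule.fg_of_fg_map_injective (io p.1) (io_inj p.1) ?_
  rw [Submodule.map_comap_eq, inf_eq_right.2 hs]
  exact hFG

theorem eps_single (s : M × ℕ) : eps (R := R) (Finsupp.single s 1) = s.1 := by
  simp [eps]

theorem io_single (S : Finset (M × ℕ)) (s : S) (r : R) :
    io S (Finsupp.single s r) = Finsupp.single s.1 r := by
  simp [io]

theorem inc_single {S T : Finset (M × ℕ)} (h : S ⊆ T) (s : S) (r : R) :
    inc h (Finsupp.single s r) = Finsupp.single ⟨s.1, h s.2⟩ r := by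
  simp [inc]

theorem cofinal {A : ModuleCat.{u} R → Prop}
    (hfp : ∀ B, A B → Module.FinitePresentation R B)
    (hiso : ∀ B C : ModuleCat.{u} R, A B → Nonempty (B ≃ₗ[R] C) → A C) (hM : Factor A M) (p : SK R M)
    (hFG : p.2.FG) (hs : p.2 ≤ LinearMap.range (io (R := R) p.1))
    (hk : p.2 ≤ LinearMap.ker (eps (R := R) (M := M))) :
    ∃ q : SK R M, p ≤ q ∧ q.2.FG ∧ q.2 ≤ LinearMap.range (io (R := R) q.1) ∧
      q.2 ≤ LinearMap.ker (eps (R := R) (M := M)) ∧ A (ModuleCat.of R (Gm q)) := by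
  classical
  have := fp_Gm p hFG hs
  obtain ⟨B, hB, a, b, hab⟩ := hM (Gm p) (toM p hk)
  have := hfp B hB
  obtain ⟨n, x, hx⟩ := Module.Finite.exists_fin (R := R) (M := B)
  let N0 : ℕ := p.1.sup Prod.snd + 1
  have hN0 : ∀ s ∈ p.1, s.2 < N0 := fun s hs' => Nat.lt_succ_of_le (Finset.le_sup (f := Prod.snd) hs')
  obtain ⟨τ, hτ1, hτ2⟩ : ∃ τ : M × ℕ → B,
      (∀ s (hs : s ∈ p.1), τ s = a (mkG p (Finsupp.single ⟨s, hs⟩ 1))) ∧
      ∀ k : Fin n, τ (b (x k), N0 + (k : ℕ)) = x k := by
    refine ⟨fun s => if hs : s ∈ p.1 then a (mkG p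
      (Finsupp.single ⟨s, hs⟩ 1)) else if h : N0 ≤ s.2 ∧ s.2 - N0 < n then x ⟨s.2 - N0, h.2⟩ else 0,
      fun s hs => dif_pos hs, fun k => ?_⟩
    have h1 : (b (x k), N0 + (k : ℕ)) ∉ p.1 := by
      intro h
      have := hN0 _ h
      simp at this
    simp only [dif_neg h1]
    rw [dif_pos ⟨Nat.le_add_right _ _, by simp⟩]
    congr 1
    ext
    simp
  obtain ⟨S', hS'⟩ : ∃ S' : Finset (M × ℕ),
      S' = p.1 ∪ Finset.univ.image (fun k : Fin n => (b (x k), N0 + (k : ℕ))) := ⟨_, rfl⟩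
  have hsub : p.1 ⊆ S' := hS' ▸ Finset.subset_union_left
  have hbτ : ∀ s ∈ S', b (τ s) = s.1 := by
    intro s hs'
    rcases Finset.mem_union.1 (hS' ▸ hs') with h | h
    · rw [hτ1 s h]
      have : b (a (mkG p (Finsupp.single ⟨s, h⟩ 1)))
          = toM p hk (mkG p (Finsupp.single ⟨s, h⟩ 1)) := by
        rw [← hab]; rfl
      rw [this, toM_mk, io_single, eps_single]
    · obtain ⟨k, _, rfl⟩ := Finset.mem_image.1 h
      rw [hτ2]
  let θ : (S' →₀ R) →ₗ[R] B := Finsupp.linearCombination R (fun s : S' => τ s)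
  have hθ : Function.Surjective θ := by
    rw [← LinearMap.range_eq_top, eq_top_iff, ← hx, Submodule.span_le]
    rintro _ ⟨k, rfl⟩
    have hmem : (b (x k), N0 + (k : ℕ)) ∈ S' :=
      hS' ▸ Finset.mem_union_right _ (Finset.mem_image.2 ⟨k, Finset.mem_univ _, rfl⟩)
    refine ⟨Finsupp.single ⟨_, hmem⟩ 1, ?_⟩
    simp only [θ, Finsupp.linearCombination_single, one_smul]
    exact hτ2 k
  have hθa : ∀ y : p.1 →₀ R, θ (inc hsub y) = a (mkG p y) := by
    intro y
    have : θ ∘ₗ inc hsub = a ∘ₗ mkG p := by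
      refine Finsupp.lhom_ext' fun s => ?_
      ext
      simp only [LinearMap.comp_apply, Finsupp.lsingle_apply, inc_single, θ,
        Finsupp.linearCombination_single, one_smul]
      exact hτ1 s.1 s.2
    exact LinearMap.congr_fun this y
  have hbθ : ∀ y : S' →₀ R, b (θ y) = eps (io S' y) := by
    intro y
    have : b ∘ₗ θ = eps ∘ₗ io S' := by
      refine Finsupp.lhom_ext' fun s => ?_
      ext
      simp only [LinearMap.comp_apply, Finsupp.lsingle_apply, io_single, θ,
        Finsupp.linearCombination_single, one_smul, eps_single]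
      exact hbτ s.1 s.2
    exact LinearMap.congr_fun this y
  let q : SK R M := (S', (LinearMap.ker θ).map (io S'))
  have hcomap : q.2.comap (io q.1) = LinearMap.ker θ :=
    Submodule.comap_map_eq_of_injective (io_inj S') _
  refine ⟨q, ⟨hsub, ?_⟩, ?_, ?_, ?_, ?_⟩
  · intro z hz
    obtain ⟨y, rfl⟩ := hs hz
    refine ⟨inc hsub y, ?_, io_inc hsub y⟩
    show θ (inc hsub y) = 0
    rw [hθa]
    rw [(mkG_zero p).2 hz, map_zero]
  · exact (Module.FinitePresentation.fg_ker θ hθ).map _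
  · rintro _ ⟨y, _, rfl⟩
    exact ⟨y, rfl⟩
  · rintro _ ⟨y, hy, rfl⟩
    show eps (io S' y) = 0
    rw [← hbθ]
    have : θ y = 0 := hy
    rw [this, map_zero]
  · refine hiso B _ hB ⟨?_⟩
    exact ((Submodule.quotEquivOfEq _ _ hcomap).trans
      (θ.quotKerEquivOfSurjective hθ)).symm

/-- Lenzing's criterion. -/
theorem inLim_of_factor {A : ModuleCat.{u} R → Prop}
    (hfp : ∀ B, A B → Module.FinitePresentation R B)
    (hiso : ∀ B C : ModuleCat.{u} R, A B → Nonempty (B ≃ₗ[R] C) → A C) (hM : Factor A M) : InLim A M := by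
  classical
  let J := {q : SK R M // q.2.FG ∧ q.2 ≤ LinearMap.range (io (R := R) q.1) ∧
      q.2 ≤ LinearMap.ker (eps (R := R) (M := M)) ∧ A (ModuleCat.of R (Gm q))}
  have hcof : ∀ p : SK R M, p.2.FG → p.2 ≤ LinearMap.range (io (R := R) p.1) →
      p.2 ≤ LinearMap.ker (eps (R := R) (M := M)) → ∃ q : J, p ≤ q.1 := by
    intro p h1 h2 h3
    obtain ⟨q, hq, h4⟩ := cofinal hfp hiso hM p h1 h2 h3
    exact ⟨⟨q, h4⟩, hq⟩
  have hne : Nonempty J := by
    obtain ⟨q, _⟩ := hcof (∅, ⊥) Submodule.fg_bot bot_le bot_le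
    exact ⟨q⟩
  have hrange : ∀ {S T : Finset (M × ℕ)} (_ : S ⊆ T),
      LinearMap.range (io (R := R) S) ≤ LinearMap.range (io (R := R) T) := by
    rintro S T h _ ⟨y, rfl⟩
    exact ⟨inc h y, io_inc h y⟩
  have hdir : IsDirectedOrder J := ⟨fun q q' => by
    obtain ⟨r, hr⟩ := hcof (q.1.1 ∪ q'.1.1, q.1.2 ⊔ q'.1.2) (q.2.1.sup q'.2.1)
      (sup_le (q.2.2.1.trans (hrange Finset.subset_union_left))
        (q'.2.2.1.trans (hrange Finset.subset_union_right)))
      (sup_le q.2.2.2.1 q'.2.2.2.1)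
    exact ⟨r, ⟨Finset.subset_union_left.trans hr.1, le_sup_left.trans hr.2⟩,
      ⟨Finset.subset_union_right.trans hr.1, le_sup_right.trans hr.2⟩⟩⟩
  let G : J → ModuleCat.{u} R := fun q => ModuleCat.of R (Gm q.1)
  let f : ∀ i j : J, i ≤ j → G i →ₗ[R] G j := fun i j h => tr (p := i.1) (q := j.1) h
  have hds : DirectedSystem (fun i => G i) fun i j h => f i j h := by
    constructor
    · intro i x
      obtain ⟨y, rfl⟩ := mkG_surj _ x
      show tr _ (mkG _ y) = _
      rw [tr_mk, inc_self]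
    · intro k j i hij hjk x
      obtain ⟨y, rfl⟩ := mkG_surj _ x
      show tr hjk (tr hij (mkG _ y)) = tr (hij.trans hjk) (mkG _ y)
      rw [tr_mk, tr_mk, tr_mk, inc_inc]
  let g : ∀ i : J, G i →ₗ[R] M := fun i => toM i.1 i.2.2.2.1
  have hg : ∀ i j hij x, g j (f i j hij x) = g i x := by
    intro i j hij x
    obtain ⟨y, rfl⟩ := mkG_surj _ x
    show toM j.1 j.2.2.2.1 (tr hij (mkG _ y)) = toM i.1 i.2.2.2.1 (mkG _ y)
    rw [tr_mk, toM_mk, toM_mk, io_inc]
  refine ⟨J, inferInstance, hdir, hne, inferInstance, G, f, hds, fun i => i.2.2.2.2, ⟨?_⟩⟩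
  refine LinearEquiv.ofBijective (Module.DirectLimit.lift R J (fun i => G i) f g hg) ⟨?_, ?_⟩
  · intro z w hzw
    obtain ⟨i, x, x', rfl, rfl⟩ := Module.DirectLimit.exists_of₂ z w
    rw [Module.DirectLimit.lift_of, Module.DirectLimit.lift_of] at hzw
    obtain ⟨y, hy⟩ := mkG_surj i.1 (x - x')
    have hz' : eps (io i.1.1 y) = 0 := by
      have h1 : g i (x - x') = 0 := by rw [map_sub, hzw, sub_self]
      rw [← hy] at h1
      exact h1
    obtain ⟨j, hj⟩ := hcof (i.1.1, i.1.2 ⊔ Submodule.span R {io i.1.1 y})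
      (i.2.1.sup (Submodule.fg_span_singleton _))
      (sup_le i.2.2.1 (by
        rw [Submodule.span_singleton_le_iff_mem]
        exact ⟨y, rfl⟩))
      (sup_le i.2.2.2.1 (by
        rw [Submodule.span_singleton_le_iff_mem]
        exact hz'))
    have hij : i ≤ j := ⟨hj.1, le_sup_left.trans hj.2⟩
    have h2 : f i j hij (mkG i.1 y) = 0 := by
      show tr (p := i.1) (q := j.1) hij (mkG _ y) = 0
      rw [tr_mk, mkG_zero, io_inc]
      exact hj.2 (Submodule.mem_sup_right (Submodule.mem_span_singleton_self _))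
    have h3 : f i j hij x = f i j hij x' := by
      rw [← sub_eq_zero, ← map_sub, ← hy, h2]
    have e1 : Module.DirectLimit.of R J (fun i => G i) f j (f i j hij x)
        = Module.DirectLimit.of R J (fun i => G i) f i x := Module.DirectLimit.of_f
    have e2 : Module.DirectLimit.of R J (fun i => G i) f j (f i j hij x')
        = Module.DirectLimit.of R J (fun i => G i) f i x' := Module.DirectLimit.of_f
    rw [← e1, ← e2, h3]
  · intro m
    obtain ⟨j, hj⟩ := hcof ({(m, 0)}, ⊥) Submodule.fg_bot bot_le bot_le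
    have hmem : (m, 0) ∈ j.1.1 := hj.1 (Finset.mem_singleton_self _)
    refine ⟨Module.DirectLimit.of R J (fun i => G i) f j
      (mkG j.1 (Finsupp.single ⟨(m, 0), hmem⟩ 1)), ?_⟩
    rw [Module.DirectLimit.lift_of]
    show eps (io _ _) = m
    rw [io_single, eps_single]

end

end Pool.Agent.X146.ML
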