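import Mathlib
import Pool.Agent.X146.ML.Lim
import Pool.Agent.X146.ML.Chain

/-!
Zorn's lemma: a module all of whose pure quotients are Mittag-Leffler is a direct sum of
countably generated modules.
-/

namespace Pool.Agent.X146.ML

universe u

variable {R : Type u} [Ring R]

/-- `M` is the internal direct sum of a family of countably generated submodules. -/
def IsSumOfCountable (R : Type u) [Ring R] (M : Type u) [AddCommGroup M] [Module R M] : Prop :=
  ∃ (ι : Type u) (_ : DecidableEq ι) (K : ι → Submodule R M),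
    (∀ i, ∃ s : Set M, s.Countable ∧ Submodule.span R s = K i) ∧ DirectSum.IsInternal K

theorem sSupIndep_insert {M : Type u} [AddCommGroup M] [Module R M] {S : Set (Submodule R M)}
    (hS : sSupIndep S) {K : Submodule R M} (hK : Disjoint K (sSup S)) :
    sSupIndep (insert K S) := by
  intro a ha
  by_cases haK : a = K
  · subst haK
    refine hK.mono_right (sSup_le fun b hb => le_sSup ?_)
    rcases hb.1 with h | h
    · exact absurd h hb.2
    · exact h
  · have haS : a ∈ S := by
      rcases ha with h | h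
      · exact absurd h haK
      · exact h
    have h1 : Disjoint a (sSup (S \ {a})) := hS haS
    have h2 : Disjoint (a ⊔ sSup (S \ {a})) K :=
      (hK.mono_right (sup_le (le_sSup haS) (sSup_le fun b hb => le_sSup hb.1))).symm
    have h3 := Disjoint.disjoint_sup_right_of_disjoint_sup_left h1 h2
    refine h3.mono_right (sSup_le fun b hb => ?_)
    rcases hb.1 with h | h
    · rw [h]; exact le_sup_right
    · exact (le_sSup (show b ∈ S \ {a} from ⟨h, fun hba => hb.2 hba⟩)).trans le_sup_left

theorem main {M : Type u} [AddCommGroup M] [Module R M]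
    (hM : ∀ N : Submodule R M, PureLift N → MittagLeffler R (M ⧸ N)) :
    IsSumOfCountable R M := by
  classical
  let Z : Set (Set (Submodule R M)) := {S | sSupIndep S ∧
    (∀ K ∈ S, ∃ s : Set M, s.Countable ∧ Submodule.span R s = K) ∧ PureLift (sSup S)}
  have h0 : (∅ : Set (Submodule R M)) ∈ Z := by
    refine ⟨sSupIndep_empty, by simp, ?_⟩
    rw [sSup_empty]
    exact pure_bot
  obtain ⟨S, _, hS⟩ := zorn_subset_nonempty Z (by
    intro c hc hchain hne
    refine ⟨⋃₀ c, ⟨?_, ?_, ?_⟩, fun s hs => Set.subset_sUnion_of_mem hs⟩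
    · exact iSupIndep_sUnion_of_directed hchain.directedOn
        (fun a ha => (hc ha).1)
    · rintro K ⟨s, hs, hK⟩
      exact (hc hs).2.1 K hK
    · have h1 : sSup (⋃₀ c) = sSup (sSup '' c) := by
        rw [sSup_sUnion, sSup_image]
      rw [h1]
      refine pure_sSup ?_ (hne.image _) ?_
      · rintro _ ⟨a, ha, rfl⟩ _ ⟨b, hb, rfl⟩
        obtain ⟨d, hd, h2, h3⟩ := hchain.directedOn a ha b hb
        exact ⟨sSup d, ⟨d, hd, rfl⟩, sSup_le_sSup h2, sSup_le_sSup h3⟩
      · rintro _ ⟨a, ha, rfl⟩
        exact (hc ha).2.2) ∅ h0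
  obtain ⟨⟨hind, hcg, hpure⟩, hmax⟩ := hS
  have htop : sSup S = ⊤ := by
    by_contra hne
    obtain ⟨m, hm⟩ : ∃ m, m ∉ sSup S := by
      by_contra hcon
      push Not at hcon
      exact hne (eq_top_iff.2 fun x _ => hcon x)
    obtain ⟨K, hKcg, hdisj, hKpure, hq⟩ := exists_piece hpure (hM _ hpure) ((sSup S).mkQ m)
    have hmem : insert K S ∈ Z := by
      refine ⟨sSupIndep_insert hind hdisj, ?_, ?_⟩
      · intro K' hK'
        rcases hK' with rfl | hK'
        · exact hKcg
        · exact hcg K' hK'
      · rw [sSup_insert, sup_comm]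
        exact hKpure
    have h1 : insert K S ⊆ S := hmax hmem (Set.subset_insert K S)
    have h2 : K ≤ sSup S := le_sSup (h1 (Set.mem_insert K S))
    have h3 : K = ⊥ := by
      rw [eq_bot_iff]
      exact hdisj le_rfl h2
    rw [h3, Submodule.map_bot, Submodule.mem_bot] at hq
    exact hm (mkQ_zero.1 hq)
  refine ⟨S, inferInstance, fun K => K.1, fun K => hcg K.1 K.2, ?_⟩
  rw [DirectSum.isInternal_submodule_iff_iSupIndep_and_iSup_eq_top]
  exact ⟨(sSupIndep_iff S).1 hind, by rw [← htop, sSup_eq_iSup']⟩

end Pool.Agent.X146.ML
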